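import Mathlib
import Pool.Agent.W_MP_c086f7_lc.Defs
import Pool.Agent.W_MP_c086f7_lc.NotA
import Pool.Agent.W_MP_c086f7_lc.NotB
import Pool.Agent.W_MP_c086f7_lc.CountableA
import Pool.Agent.W_MP_c086f7_lc.SysB
import Pool.Agent.W_MP_c086f7_lc.Square

open Cardinal Pool.Agent.W_MP_c086f7_lc

universe u

namespace Pool.Agent.Results.MP_c086f7_lc.Classification

/-- The set-splitting game `G(E)`.
(1) If `E` is uncountable, player A has no winning strategy (A has one iff `E` is countable).
(2) If `ℵ₀ < |E| ≤ 2^ℵ₀`, neither player has a winning strategy.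
(3) B has a winning strategy iff `E` carries a closed splitting system.
(4) If B has a winning strategy then there is a regular cardinal `κ` with `2^ℵ₀ < κ ≤ |E|` at which
the square principle fails. -/
theorem result (E : Type u) :
    (AWins E ↔ Countable E) ∧
    (ℵ₀ < #E → #E ≤ 𝔠 → ¬ AWins E ∧ ¬ BWins E) ∧
    (BWins E ↔ HasSystem E) ∧
    (BWins E → ∃ κ : Cardinal.{u}, κ.IsRegular ∧ 𝔠 < κ ∧ κ ≤ #E ∧ SquareFails κ) := by
  refine ⟨⟨fun h => ?_, AWins_of_countable E⟩, fun h1 h2 => ⟨fun h => ?_, not_BWins E h2⟩,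
    BWins_iff_hasSystem, square_fails_of_BWins⟩
  · by_contra hE
    exact not_AWins E hE h
  · have hE : ¬ Countable E := by
      rw [← Cardinal.mk_le_aleph0_iff]; exact not_le.2 h1
    exact not_AWins E hE h

end Pool.Agent.Results.MP_c086f7_lc.Classification
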